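import Mathlib

set_option autoImplicit false
open Filter Topology Matrix

namespace Pool.Agent.Results.MP_0a7e48_nt.No

/-- `2 × 2` integer matrices `M = (p r; q s)`: `p = M 0 0`, `r = M 0 1`, `q = M 1 0`, `s = M 1 1`. -/
abbrev Mat := Matrix (Fin 2) (Fin 2) ℤ

/-- `[b₁; b₂ : ⋯ : b_k]` (only nonempty lists are used). -/
def cf : List ℕ → ℚ
  | [] => 0
  | [b] => b
  | b :: c :: t => b + 1 / cf (c :: t)

/-- `M_P = M_{a₁} ⋯ M_{a_{2n}}` with `M_a = (0 1; 1 a)`. -/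
def MP (P : List ℕ) : Mat := (P.map fun a : ℕ => (!![0, 1; 1, (a : ℤ)] : Mat)).prod

/-- The class of `P` is the LLS cycle of `M`: `M` is `GL(2,ℤ)`-conjugate to `M_P` or to `-M_P`. -/
def LLS (P : List ℕ) (M : Mat) : Prop :=
  ∃ g h : Mat, g * h = 1 ∧ h * g = 1 ∧ (M = g * MP P * h ∨ M = g * (-MP P) * h)

/-- Step 1: if `q < 0`, negate. -/
def step1 (M : Mat) : Mat := if M 1 0 < 0 then -M else M

/-- Step 2: `k = ⌊p/q⌋`, `M ↦ C M C⁻¹` with `C = (1 -k; 0 1)`, `C⁻¹ = (1 k; 0 1)`. -/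
def step2 (M : Mat) : Mat :=
  !![1, -⌊(M 0 0 : ℚ) / M 1 0⌋; 0, 1] * M * !![1, ⌊(M 0 0 : ℚ) / M 1 0⌋; 0, 1]

/-- `Alg3 M O`: the algorithm entered at step 3 with matrix `M` halts and returns `O`
(`D = (-1 1; 0 1) = D⁻¹`). -/
inductive Alg3 : Mat → Mat → Prop
  | a {M : Mat} : M 1 0 = 1 → Alg3 M M
  | b {M : Mat} : 1 < M 1 0 → M 1 0 < M 1 1 → Alg3 M M
  | c {M O : Mat} : 1 < M 1 0 → M 1 1 < -M 1 0 →
      Alg3 (-(!![-1, 1; 0, 1] * M * !![-1, 1; 0, 1])) O → Alg3 M O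
  | d {M O : Mat} : 1 < M 1 0 → |M 1 1| < M 1 0 →
      Alg3 (step2 (step1 !![M 1 1, M 1 0; M 0 1, M 0 0])) O → Alg3 M O

/-- The requirement on the first column `(p, q)` of the output `O`. -/
def Col (P : List ℕ) (O : Mat) : Prop :=
  ((∃ a, P = [1, a]) ∧ O 0 0 = 0 ∧ O 1 0 = 1) ∨
    ((¬ ∃ a, P = [1, a]) ∧ (O 1 0 : ℚ) / O 0 0 = cf P.dropLast)

/-- `#_N(P)`. -/
noncomputable def cnt (P : List ℕ) (N : ℕ) : ℕ :=
  {M : Mat | M.det = 1 ∧ (∀ i j, |M i j| ≤ N) ∧ LLS P M ∧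
    ∃ O, Alg3 (step2 (step1 M)) O ∧ Col P O}.ncard

/-- `GK(Q) = log₂ (γ(1+β) / (β(1+γ)))`, `β = [b₁;⋯:b_{2n-1}]`, `γ = [b₁;⋯:b_{2n-1}+1]`. -/
noncomputable def GK (Q : List ℕ) : ℝ :=
  Real.logb 2 ((cf (Q.dropLast ++ [Q.getLastD 0 + 1]) * (1 + cf Q) /
    (cf Q * (1 + cf (Q.dropLast ++ [Q.getLastD 0 + 1]))) : ℚ) : ℝ)

def S (M : Mat) : Prop := (∃ X : Mat, M = 1 + X + X) ∧ (M.trace = 10 ∨ M.trace = -10)

def φ (M : Mat) : Mat := (10 : ℤ) • M - (M.trace / 10) • (1 : Mat)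

lemma tr_conj {g h : Mat} (e : h * g = 1) (M : Mat) : (g * M * h).trace = M.trace := by
  rw [trace_mul_comm, ← mul_assoc, e, one_mul]

lemma S_conj {g h M : Mat} (e : g * h = 1) (e' : h * g = 1) (hM : S M) : S (g * M * h) := by
  obtain ⟨⟨X, rfl⟩, h2⟩ := hM
  refine ⟨⟨g * X * h, ?_⟩, by rwa [tr_conj e']⟩
  simp [mul_add, add_mul, e]

lemma φ_conj {g h : Mat} (e : g * h = 1) (e' : h * g = 1) (M : Mat) :
    φ (g * M * h) = g * φ M * h := by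
  simp only [φ, tr_conj e', mul_sub, sub_mul, Matrix.mul_smul, Matrix.smul_mul, mul_one, e]

lemma S_neg {M : Mat} (hM : S M) : S (-M) := by
  obtain ⟨⟨X, rfl⟩, h2⟩ := hM
  refine ⟨⟨-1 - X, ?_⟩, by rw [trace_neg]; omega⟩
  abel

lemma φ_neg {M : Mat} (hM : S M) : φ (-M) = -φ M := by
  have : (-M).trace / 10 = -(M.trace / 10) := by
    rw [trace_neg]; rcases hM.2 with h | h <;> omega
  simp only [φ, this, smul_neg, neg_smul]; abel

lemma ent {M : Mat} (hM : S M) : ∃ σ a b c : ℤ, (σ = 1 ∨ σ = -1) ∧ M 0 0 + M 1 1 = 10 * σ ∧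
    M 0 0 = 2 * a + 1 ∧ M 1 0 = 2 * b ∧ M 1 1 = 2 * c + 1 ∧ φ M 0 0 = 10 * M 0 0 - σ ∧
    φ M 0 1 = 10 * M 0 1 ∧ φ M 1 0 = 10 * M 1 0 ∧ φ M 1 1 = 10 * M 1 1 - σ := by
  obtain ⟨⟨X, hX⟩, h2⟩ := hM
  have t := trace_fin_two M
  refine ⟨M.trace / 10, X 0 0, X 1 0, X 1 1, by omega, by omega, ?_, ?_, ?_, ?_, ?_, ?_, ?_⟩
  · rw [hX]; simp; ring
  · rw [hX]; simp; ring
  · rw [hX]; simp; ring
  all_goals simp only [φ, Matrix.sub_apply, Matrix.smul_apply, smul_eq_mul]; simp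

lemma S1 {M : Mat} (hM : S M) : S (step1 M) ∧ step1 (φ M) = φ (step1 M) ∧ 0 ≤ step1 M 1 0 := by
  obtain ⟨σ, a, b, c, -, -, -, -, -, -, -, h, -⟩ := ent hM
  unfold step1
  by_cases h1 : M 1 0 < 0
  · rw [if_pos h1, if_pos (by omega)]
    exact ⟨S_neg hM, (φ_neg hM).symm, by simp; omega⟩
  · rw [if_neg h1, if_neg (by omega)]
    exact ⟨hM, rfl, by omega⟩

lemma CC (k : ℤ) : (!![1, -k; 0, 1] : Mat) * !![1, k; 0, 1] = 1 ∧
    (!![1, k; 0, 1] : Mat) * !![1, -k; 0, 1] = 1 := by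
  constructor <;> simp [one_fin_two]

lemma S2 {M : Mat} (hM : S M) (hq : 0 ≤ M 1 0) : S (step2 M) ∧ step2 (φ M) = φ (step2 M) := by
  obtain ⟨σ, a, b, c, h0, -, h2, h3, -, h5, -, h7, -⟩ := ent hM
  refine ⟨S_conj (CC _).1 (CC _).2 hM, ?_⟩
  have : ⌊(φ M 0 0 : ℚ) / φ M 1 0⌋ = ⌊(M 0 0 : ℚ) / M 1 0⌋ := by
    rcases hq.eq_or_lt with h | h
    · rw [h7, ← h]; simp
    · have hq' : (0 : ℚ) < M 1 0 := by exact_mod_cast h
      obtain ⟨k, hk⟩ : ∃ k, ⌊(M 0 0 : ℚ) / M 1 0⌋ = k := ⟨_, rfl⟩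
      rw [hk]
      rw [Int.floor_eq_iff, le_div_iff₀ hq', div_lt_iff₀ hq'] at hk
      have a1 : k * M 1 0 ≤ M 0 0 := by exact_mod_cast hk.1
      have a2 : M 0 0 < (k + 1) * M 1 0 := by exact_mod_cast hk.2
      have hq2 : (0 : ℚ) < φ M 1 0 := by exact_mod_cast (by omega : 0 < φ M 1 0)
      rw [Int.floor_eq_iff, le_div_iff₀ hq2, div_lt_iff₀ hq2]
      have a3 : k * M 1 0 = 2 * (k * b) := by rw [h3]; ring
      have a4 : k * φ M 1 0 ≤ φ M 0 0 := by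
        rw [h7, show k * (10 * M 1 0) = 10 * (k * M 1 0) by ring]; omega
      have a5 : φ M 0 0 < (k + 1) * φ M 1 0 := by
        rw [h7, show (k + 1) * (10 * M 1 0) = 10 * ((k + 1) * M 1 0) by ring]; omega
      exact ⟨by exact_mod_cast a4, by exact_mod_cast a5⟩
  unfold step2
  rw [this, φ_conj (CC _).1 (CC _).2]

lemma S12 {M : Mat} (hM : S M) :
    S (step2 (step1 M)) ∧ step2 (step1 (φ M)) = φ (step2 (step1 M)) := by
  obtain ⟨h1, h2, h3⟩ := S1 hM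
  rw [h2]
  exact S2 h1 h3

lemma DD : (!![-1, 1; 0, 1] : Mat) * !![-1, 1; 0, 1] = 1 := by simp [one_fin_two]
lemma JJ : (!![0, 1; 1, 0] : Mat) * !![0, 1; 1, 0] = 1 := by simp [one_fin_two]
lemma swap_eq (M : Mat) : !![M 1 1, M 1 0; M 0 1, M 0 0] = !![0, 1; 1, 0] * M * !![0, 1; 1, 0] := by
  ext i j; fin_cases i <;> fin_cases j <;> simp only [Matrix.mul_apply, Fin.sum_univ_two] <;> simp

lemma fwd {M O : Mat} (h : Alg3 M O) : S M → S O ∧ Alg3 (φ M) (φ O) := by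
  induction h with
  | a h => intro hM; obtain ⟨σ, a, b, c, -, -, -, h3, -⟩ := ent hM; omega
  | b h1 h2 =>
    intro hM
    obtain ⟨σ, a, b, c, h0, -, -, -, -, -, -, h7, h8⟩ := ent hM
    exact ⟨hM, .b (by omega) (by omega)⟩
  | c h1 h2 _ ih =>
    intro hM
    obtain ⟨σ, a, b, c, h0, -, -, -, -, -, -, h7, h8⟩ := ent hM
    obtain ⟨i1, i2⟩ := ih (S_neg (S_conj DD DD hM))
    rw [φ_neg (S_conj DD DD hM), φ_conj DD DD] at i2
    exact ⟨i1, .c (by omega) (by omega) i2⟩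
  | d h1 h2 _ ih =>
    intro hM
    obtain ⟨σ, a, b, c, h0, -, -, -, -, -, -, h7, h8⟩ := ent hM
    rw [swap_eq] at ih
    obtain ⟨j1, j2⟩ := S12 (S_conj JJ JJ hM)
    obtain ⟨i1, i2⟩ := ih j1
    rw [← j2, φ_conj JJ JJ, ← swap_eq] at i2
    rw [abs_lt] at h2
    exact ⟨i1, .d (by omega) (by rw [abs_lt]; omega) i2⟩

lemma bwd {W O' : Mat} (h : Alg3 W O') : ∀ M, S M → W = φ M → ∃ O, Alg3 M O ∧ S O ∧ O' = φ O := by
  induction h with
  | a h => rintro M hM rfl; obtain ⟨σ, a, b, c, -, -, -, -, -, -, -, h7, -⟩ := ent hM; omega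
  | b h1 h2 =>
    rintro M hM rfl
    obtain ⟨σ, a, b, c, h0, -, -, h3, h4, -, -, h7, h8⟩ := ent hM
    exact ⟨M, .b (by omega) (by omega), hM, rfl⟩
  | c h1 h2 _ ih =>
    rintro M hM rfl
    obtain ⟨σ, a, b, c, h0, -, -, h3, h4, -, -, h7, h8⟩ := ent hM
    obtain ⟨O, i1, i2⟩ := ih _ (S_neg (S_conj DD DD hM))
      (by rw [φ_neg (S_conj DD DD hM), φ_conj DD DD])
    exact ⟨O, .c (by omega) (by omega) i1, i2⟩
  | d h1 h2 _ ih =>
    rintro M hM rfl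
    obtain ⟨σ, a, b, c, h0, -, -, h3, h4, -, -, h7, h8⟩ := ent hM
    obtain ⟨j1, j2⟩ := S12 (S_conj JJ JJ hM)
    obtain ⟨O, i1, i2⟩ := ih _ j1 (by rw [← j2, φ_conj JJ JJ, ← swap_eq])
    rw [← swap_eq] at i1
    rw [abs_lt] at h2
    exact ⟨O, .d (by omega) (by rw [abs_lt]; omega) i1, i2⟩

lemma halt {M O : Mat} (h : Alg3 M O) : O 1 0 = 1 ∨ (1 < O 1 0 ∧ O 1 0 < O 1 1) := by
  induction h with
  | a h => exact Or.inl h
  | b h1 h2 => exact Or.inr ⟨h1, h2⟩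
  | c _ _ _ ih => exact ih
  | d _ _ _ ih => exact ih

lemma det_conj {g h : Mat} (e : g * h = 1) (M : Mat) : (g * M * h).det = M.det := by
  rw [det_mul, det_mul, mul_right_comm, ← det_mul, e, det_one, one_mul]

lemma det12 (M : Mat) : (step2 (step1 M)).det = M.det := by
  rw [step2, det_conj (CC _).1, step1]
  split_ifs <;> simp [det_neg]

lemma det_alg {M O : Mat} (h : Alg3 M O) : O.det = M.det := by
  induction h with
  | a _ => rfl
  | b _ _ => rfl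
  | c _ _ _ ih => rw [ih, det_neg, det_conj DD]; simp
  | d _ _ _ ih => rw [ih, det12, swap_eq, det_conj JJ]

lemma key {a b : ℕ} (hab : a * b = 8) (ha : 2 ≤ a) (hS : S (MP [a, b]))
    (hφ : MP [a, b, a, b] = φ (MP [a, b])) (hc : cf [a, b, a] = 10 * a / 9) (n : ℕ) :
    cnt [a, b, a, b] (10 * n + 1) = cnt [a, b] n := by
  have hdet : ∀ M, S M → (φ M).det = 100 * (M.det - 1) + 1 := fun M hM => by
    obtain ⟨σ, -, -, -, h0, h1, -, -, -, h5, h6, h7, h8⟩ := ent hM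
    rw [det_fin_two, det_fin_two, h5, h6, h7, h8]
    rcases h0 with rfl | rfl
    · linear_combination -10 * h1
    · linear_combination 10 * h1
  have hL : ∀ M, LLS [a, b] M → S M := by
    rintro M ⟨g, h, e, e', rfl | rfl⟩
    exacts [S_conj e e' hS, S_conj e e' (S_neg hS)]
  have hb : ∀ M, S M → ((∀ i j, |φ M i j| ≤ (10 * n + 1 : ℕ)) ↔ ∀ i j, |M i j| ≤ n) := by
    intro M hM
    obtain ⟨σ, -, -, -, h0, -, -, -, -, h5, h6, h7, h8⟩ := ent hM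
    simp only [Fin.forall_fin_two, abs_le, h5, h6, h7, h8]
    omega
  have hC : ∀ O, S O → O.det = 1 → 1 < O 1 0 → O 1 0 < O 1 1 →
      (Col [a, b, a, b] (φ O) ↔ Col [a, b] O) := by
    intro O hO hd q1 q2
    obtain ⟨σ, u, v, w, h0, h1, h2, h3, -, h5, -, h7, -⟩ := ent hO
    have n1 : ¬ ∃ x, [a, b] = [1, x] := by rintro ⟨x, hx⟩; simp at hx; omega
    have n2 : ¬ ∃ x, [a, b, a, b] = [1, x] := by simp
    simp only [Col, n1, n2, false_and, false_or, not_false_eq_true, true_and, List.dropLast]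
    rw [hc, cf, h5, h7]
    rw [det_fin_two] at hd
    have p0 : (O 0 0 : ℚ) ≠ 0 := by exact_mod_cast (by omega : O 0 0 ≠ 0)
    have p1 : ((10 * O 0 0 - σ : ℤ) : ℚ) ≠ 0 := by exact_mod_cast (by omega : 10 * O 0 0 - σ ≠ 0)
    rw [div_eq_div_iff p1 (by norm_num), div_eq_iff p0]
    constructor
    · intro h
      have h' : 10 * O 1 0 * 9 = 10 * a * (10 * O 0 0 - σ) := by exact_mod_cast h
      have a2 : a = 2 ∨ a = 4 ∨ a = 8 := by
        have : a ≤ 8 := Nat.le_of_dvd (by norm_num) ⟨b, hab.symm⟩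
        interval_cases a <;> omega
      have d9 : (10 * O 0 0 - σ) ∣ 9 := by
        have c1 : IsCoprime (10 * O 0 0 - σ) (O 1 0) := ⟨10 * O 1 1 - σ, -100 * O 0 1, by
          rcases h0 with rfl | rfl
          · linear_combination 100 * hd - 10 * h1
          · linear_combination 100 * hd + 10 * h1⟩
        exact c1.dvd_of_dvd_mul_left ⟨a, by linarith⟩
      have := Int.le_of_dvd (by norm_num) ((abs_dvd _ _).2 d9)
      rw [abs_le] at this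
      have p2 : O 0 0 = 1 ∧ σ = 1 := by
        rcases a2 with rfl | rfl | rfl <;> push_cast at h' <;> omega
      have : O 1 0 = a * O 0 0 := by rw [p2.1, p2.2] at h'; rw [p2.1]; linarith
      exact_mod_cast this
    · intro h
      have h' : O 1 0 = a * O 0 0 := by exact_mod_cast h
      have d1 : O 0 0 ∣ 1 := ⟨O 1 1 - O 0 1 * a, by rw [h'] at hd; linear_combination -hd⟩
      have p2 : O 0 0 = 1 := by
        rcases Int.isUnit_iff.1 (isUnit_of_dvd_one d1) with h | h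
        · exact h
        · rw [h] at h'; omega
      have p3 : σ = 1 := by omega
      have : 10 * O 1 0 * 9 = 10 * a * (10 * O 0 0 - σ) := by rw [h', p2, p3]; ring
      exact_mod_cast this
  symm
  refine Set.ncard_congr (fun M _ => φ M) ?_ ?_ ?_
  · rintro M ⟨h1, h2, h3, O, h4, h5⟩
    have hM := hL M h3
    obtain ⟨j1, j2⟩ := S12 hM
    obtain ⟨i1, i2⟩ := fwd h4 j1
    obtain ⟨σ, -, v, -, -, -, -, e3, -⟩ := ent i1
    have hh := (halt h4).resolve_left (by omega)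
    refine ⟨by rw [hdet M hM, h1]; rfl, (hb M hM).2 h2, ?_, φ O, j2 ▸ i2,
      (hC O i1 (by rw [det_alg h4, det12, h1]) hh.1 hh.2).2 h5⟩
    obtain ⟨g, h, e, e', rfl | rfl⟩ := h3
    · exact ⟨g, h, e, e', Or.inl (by rw [φ_conj e e', hφ])⟩
    · exact ⟨g, h, e, e', Or.inr (by rw [φ_conj e e', hφ, φ_neg hS])⟩
  · rintro M M' ⟨-, -, h3, -⟩ ⟨-, -, h3', -⟩ h
    obtain ⟨σ, -, -, -, h0, -, -, -, -, h5, h6, h7, h8⟩ := ent (hL M h3)
    obtain ⟨σ', -, -, -, h0', -, -, -, -, h5', h6', h7', h8'⟩ := ent (hL M' h3')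
    rw [h] at h5 h6 h7 h8
    ext i j
    fin_cases i <;> fin_cases j <;> simp <;> omega
  · rintro W ⟨h1, h2, h3, O', h4, h5⟩
    obtain ⟨M, hM, rfl⟩ : ∃ M, LLS [a, b] M ∧ W = φ M := by
      obtain ⟨g, h, e, e', rfl | rfl⟩ := h3
      · exact ⟨_, ⟨g, h, e, e', Or.inl rfl⟩, by rw [φ_conj e e', hφ]⟩
      · exact ⟨_, ⟨g, h, e, e', Or.inr rfl⟩, by rw [φ_conj e e', hφ, φ_neg hS]⟩
    have hM' := hL M hM
    have h6 : M.det = 1 := by rw [hdet M hM'] at h1; omega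
    obtain ⟨j1, j2⟩ := S12 hM'
    obtain ⟨O, i1, i2, rfl⟩ := bwd h4 _ j1 j2
    obtain ⟨σ, -, v, -, -, -, -, e3, -⟩ := ent i2
    have hh := (halt i1).resolve_left (by omega)
    exact ⟨M, ⟨h6, (hb M hM').1 h2, hM, O, i1,
      (hC O i2 (by rw [det_alg i1, det12, h6]) hh.1 hh.2).1 h5⟩, rfl⟩

lemma key24 (n : ℕ) : cnt [2, 4, 2, 4] (10 * n + 1) = cnt [2, 4] n :=
  key rfl le_rfl ⟨⟨!![0, 2; 1, 4], by decide⟩, Or.inl (by decide)⟩ (by decide)
    (by norm_num [cf]) n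

lemma key42 (n : ℕ) : cnt [4, 2, 4, 2] (10 * n + 1) = cnt [4, 2] n :=
  key rfl (by norm_num) ⟨⟨!![0, 1; 2, 4], by decide⟩, Or.inl (by decide)⟩ (by decide)
    (by norm_num [cf]) n

theorem result : ¬ ∀ P : List ℕ, P ≠ [] → Even P.length → (∀ a ∈ P, 0 < a) →
    Tendsto (fun N : ℕ => (cnt P N : ℝ) / cnt (P.rotate 1) N) atTop
      (𝓝 (GK P.dropLast / GK (P.rotate 1).dropLast)) := by
  intro h
  have h1 := h [2, 4] (by simp) (by decide) (by simp)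
  have h2 := (h [2, 4, 2, 4] (by simp) (by decide) (by simp)).comp
    (tendsto_atTop_mono (f := id) (g := fun n => 10 * n + 1) (fun n => by simp; omega) tendsto_id)
  have e1 : [2, 4].rotate 1 = [4, 2] := by decide
  have e2 : [2, 4, 2, 4].rotate 1 = [4, 2, 4, 2] := by decide
  rw [e1] at h1
  rw [e2] at h2
  simp only [Function.comp_def, key24, key42] at h2
  have h3 := tendsto_nhds_unique h1 h2
  have g1 : GK [2, 4].dropLast = Real.logb 2 (9 / 8) := by norm_num [GK, cf]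
  have g2 : GK [4, 2].dropLast = Real.logb 2 (25 / 24) := by norm_num [GK, cf]
  have g3 : GK [2, 4, 2, 4].dropLast = Real.logb 2 (841 / 840) := by norm_num [GK, cf]
  have g4 : GK [4, 2, 4, 2].dropLast = Real.logb 2 (2401 / 2400) := by norm_num [GK, cf]
  rw [g1, g2, g3, g4] at h3
  have p2 : 0 < Real.logb 2 (25 / 24) := Real.logb_pos (by norm_num) (by norm_num)
  have p4 : 0 < Real.logb 2 (2401 / 2400) := Real.logb_pos (by norm_num) (by norm_num)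
  have a1 : Real.logb 2 ((25 / 24) ^ 23) < Real.logb 2 ((9 / 8) ^ 8) :=
    Real.logb_lt_logb (by norm_num) (by norm_num) (by norm_num)
  have a2 : Real.logb 2 ((841 / 840) ^ 8) < Real.logb 2 ((2401 / 2400) ^ 23) :=
    Real.logb_lt_logb (by norm_num) (by norm_num) (by norm_num)
  simp only [Real.logb_pow] at a1 a2
  push_cast at a1 a2
  have b1 : 23 / 8 < Real.logb 2 (9 / 8) / Real.logb 2 (25 / 24) := by
    rw [lt_div_iff₀ p2]; linarith
  have b2 : Real.logb 2 (841 / 840) / Real.logb 2 (2401 / 2400) < 23 / 8 := by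
    rw [div_lt_iff₀ p4]; linarith
  linarith

end Pool.Agent.Results.MP_0a7e48_nt.No
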